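import Mathlib
import Pool.Agent.NPC.Classes
import Pool.Agent.NPC.Dec
import Pool.Agent.W983.Tol.PolyRed

set_option autoImplicit false

/-!
# Recognition of the tolerance classes of bounded bitolerance digraphs is NP-hard
-/

namespace Pool.Agent.Results.MP_7285af_lc.ToleranceNPHard

open Pool.Agent.NPC Pool.Agent.W983.Tol

theorem inClass_mono {a a' : Len} {b b' : Core} {c : Tolerance} {D : Dig}
    (h : InClass a b c D)
    (ha : ∀ L R : Fin (List.length D) → ℝ, a.Holds L R → a'.Holds L R)
    (hb : ∀ p q : Fin (List.length D) → ℝ, b.Holds p q → b'.Holds p q) :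
    InClass a' b' c D := by
  obtain ⟨hs, L, R, p, q, h1, h2, h3, h4⟩ := h
  exact ⟨hs, L, R, p, q, h1, ha _ _ h2, hb _ _ h3, h4⟩

theorem unit_proper {V : Type} {L R : V → ℝ} (h : Len.unit.Holds L R) (h0 : ∀ v, L v ≤ R v) :
    Len.proper.Holds L R := by
  intro x y hss
  have h1 : R x - L x = R y - L y := h x y
  have hx : L x ∈ Set.Icc (L x) (R x) := ⟨le_rfl, h0 x⟩
  have hx' : R x ∈ Set.Icc (L x) (R x) := ⟨h0 x, le_rfl⟩
  have h2 := hss.1 hx
  have h3 := hss.1 hx'
  have h4 : L x = L y := le_antisymm (by linarith [h3.2]) h2.1
  have h5 : R x = R y := le_antisymm h3.2 (by linarith [h2.1])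
  rw [h4, h5] at hss
  exact hss.2 (le_refl _)

theorem proper_of_unit {b : Core} {c : Tolerance} {D : Dig} (h : InClass Len.unit b c D) :
    InClass Len.proper b c D := by
  obtain ⟨hs, L, R, p, q, h1, h2, h3, h4⟩ := h
  refine ⟨hs, L, R, p, q, h1, unit_proper h2 (fun v => ?_), h3, h4⟩
  have := h1.p_mem v
  exact this.1.trans this.2

theorem to_arbitrary {a : Len} {b : Core} {c : Tolerance} {D : Dig} (h : InClass a b c D) :
    InClass Len.arbitrary Core.arbitrary c D :=
  inClass_mono h (fun _ _ _ => trivial) (fun _ _ _ => trivial)

/-- Recognition of every class of digraphs that contains the class (3ai) or the class (1ci) and is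
contained in the class (3ci) of the bounded tolerance digraphs is `NP`-hard. In particular it is
`NP`-hard for the five classes (3ai), (3bi), (3ci), (1ci), (2ci); hence if one of the five can be
recognized in polynomial time, then `P = NP`. -/
theorem result :
    (∀ C : Dig → Prop,
      ((∀ D, InClass Len.arbitrary Core.point Tolerance.tolerance D → C D) ∨
        (∀ D, InClass Len.unit Core.arbitrary Tolerance.tolerance D → C D)) →
      (∀ D, C D → InClass Len.arbitrary Core.arbitrary Tolerance.tolerance D) → NPHardP C) ∧
    (∀ (a : Len) (b : Core), a = Len.arbitrary ∨ b = Core.arbitrary →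
      NPHardP (InClass a b Tolerance.tolerance) ∧
      (InPP (InClass a b Tolerance.tolerance) → ∀ L : Set (List Bool), InNP L → InP L)) := by
  have key : ∀ C : Dig → Prop,
      ((∀ D, InClass Len.arbitrary Core.point Tolerance.tolerance D → C D) ∨
        (∀ D, InClass Len.unit Core.arbitrary Tolerance.tolerance D → C D)) →
      (∀ D, C D → InClass Len.arbitrary Core.arbitrary Tolerance.tolerance D) → NPHardP C := by
    rintro C (h | h) h'
    · exact hard_of_between h h'
    · exact hard_of_between' h h'
  have hard : ∀ (a : Len) (b : Core), a = Len.arbitrary ∨ b = Core.arbitrary →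
      NPHardP (InClass a b Tolerance.tolerance) := by
    intro a b h
    refine key _ ?_ (fun D hD => to_arbitrary hD)
    rcases h with rfl | rfl
    · left
      intro D hD
      refine inClass_mono hD (fun _ _ h => h) (fun p q h => ?_)
      cases b
      · exact h
      · exact fun v => (h v).le
      · trivial
    · right
      intro D hD
      cases a
      · exact hD
      · exact proper_of_unit hD
      · exact inClass_mono hD (fun _ _ _ => trivial) (fun _ _ h => h)
  exact ⟨key, fun a b h => ⟨hard a b h, fun h' => NPHard.collapse (hard a b h) h'⟩⟩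

end Pool.Agent.Results.MP_7285af_lc.ToleranceNPHard
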